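import Pool.Agent.MVO.StmtsG

/-!
# MVO row BUB (bubble sort)
-/

set_option autoImplicit false

namespace Pool.Agent.MVO.H10

open Pool.Agent.MVO

theorem bub_move (z : ℕ) (l : List ℕ) : ∀ (A B : List ℕ), (∀ a ∈ A, a ∈ l) →
    Relation.ReflTransGen (Exch (z :: l)) (A ++ z :: B) (z :: (A ++ B)) := by
  intro A
  induction A using List.reverseRecOn with
  | nil => intro B _; exact Relation.ReflTransGen.refl
  | append_singleton A a ih =>
    intro B hA
    obtain ⟨Q, R, hQR⟩ := List.append_of_mem (hA a (by simp))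
    have h1 : Exch (z :: l) (A ++ [a] ++ z :: B) (A ++ z :: (a :: B)) :=
      ⟨A, B, a, z, by simp, rfl, [], Q, R, by rw [hQR]; rfl⟩
    have h2 := ih (a :: B) (fun b hb => hA b (by simp [hb]))
    have h3 : z :: (A ++ a :: B) = z :: (A ++ [a] ++ B) := by simp
    rw [h3] at h2
    exact Relation.ReflTransGen.head h1 h2

theorem bub : BubStmt := by
  intro l l' hp hn
  induction l' generalizing l with
  | nil => rw [List.perm_nil.mp hp]
  | cons z l'' ih =>
    obtain ⟨A, B, rfl⟩ := List.append_of_mem (hp.symm.subset List.mem_cons_self)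
    have hAB : (A ++ B).Perm l'' := (List.perm_middle.symm.trans hp).cons_inv
    have h1 := bub_move z l'' A B (fun a ha => hAB.subset (List.mem_append_left _ ha))
    have h2 := ih (A ++ B) hAB hn.of_cons
    have h3 : Relation.ReflTransGen (Exch (z :: l'')) (z :: (A ++ B)) (z :: l'') :=
      h2.lift (fun m => z :: m) (by
        rintro m m' ⟨P1, Q1, x, y, rfl, rfl, P, Q, R, hPQ⟩
        exact ⟨z :: P1, Q1, x, y, rfl, rfl, z :: P, Q, R, by rw [hPQ]; rfl⟩)
    exact h1.trans h3

end Pool.Agent.MVO.H10
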