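import Pool.Agent.MVO.StmtsC

/-!
# MVO row RGC: rigidity of the two letter words in class c1
-/

set_option autoImplicit false

namespace Pool.Agent.MVO.H10

open Pool.Agent.Helper14_MV Pool.Agent.Helper2_MV

/-- exponents of the two letter word -/
def nn (a b : ℕ → ℕ) (j c : ℕ) : ℕ := if c = 0 then a j else if c = 1 then b j else 0

/-- orders of the two letter word -/
def DD (e : ℕ → Bool) (j : ℕ) : List ℕ := if e j then [1, 0] else [0, 1]

theorem gw_eq (k : ℕ) (a b : ℕ → ℕ) (e : ℕ → Bool) : gw k (nn a b) (DD e) = w2 k a b e := by
  unfold gw w2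
  apply asm_congr
  intro j _
  unfold DD bl gb
  by_cases h : e j = true
  · rw [if_pos h, if_pos h]
    simp [nn]
  · rw [if_neg h, if_neg h]
    simp [nn]

theorem gdata (k : ℕ) (a b : ℕ → ℕ) (e : ℕ → Bool) (ha : 2 ≤ deg k a) (hb : 2 ≤ deg k b) :
    GData k [0, 1] (nn a b) (DD e) := by
  refine ⟨by decide, ?_, ?_, ?_⟩
  · intro c hc hn
    simp only [List.mem_cons, List.not_mem_nil, or_false] at hc
    omega
  · intro c hc
    simp only [List.mem_cons, List.not_mem_nil, or_false] at hc
    rcases hc with rfl | rfl
    · exact ha
    · exact hb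
  · intro j
    unfold DD
    by_cases h : e j = true
    · rw [if_pos h]
      exact List.Perm.swap 0 1 []
    · rw [if_neg h]

theorem upd_eq (e : ℕ → Bool) (i : ℕ) :
    Function.update (DD e) i ([] ++ 1 :: 0 :: []) = DD (Function.update e i true) := by
  funext j
  by_cases h : j = i
  · subst h
    simp [DD]
  · rw [Function.update_of_ne h]
    unfold DD
    rw [Function.update_of_ne h]

theorem flip1 (hExc : ExcStmt) {β : FIC} (hβ : ClC1 β) {k : ℕ} {a b : ℕ → ℕ}
    (ha : 2 ≤ deg k a) (hb : 2 ≤ deg k b) {i : ℕ} (hi : i ≤ k) (hF : ¬ FR k a b i)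
    (hZ : ¬ ZR k a b i) (e : ℕ → Bool) (v : Bool) :
    RR β (w2 k a b e) (w2 k a b (Function.update e i v)) := by
  have key : ∀ e : ℕ → Bool, e i = false →
      RR β (w2 k a b e) (w2 k a b (Function.update e i true)) := by
    intro e he
    have h1 := hExc β hβ k [0, 1] (nn a b) (DD e) (gdata k a b e ha hb) i hi [] [] 0 1
      (by unfold DD; rw [he]; rfl) hF hZ
    rw [upd_eq, gw_eq, gw_eq] at h1
    exact h1
  by_cases h : e i = v
  · rw [← h, Function.update_eq_self]
    exact RR.refl _
  · cases v with
    | true =>
      exact key e (by simpa using h)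
    | false =>
      have h2 : e i = true := by simpa using h
      have h3 := key (Function.update e i false) (by simp)
      rw [Function.update_idem, ← h2, Function.update_eq_self] at h3
      exact h3.symm

theorem rgc (hExc : ExcStmt) : RgcStmt := by
  intro β hβ k a b ha hb
  have main : ∀ i, (∀ j ≤ k, j ≠ i → ¬ FR k a b j ∧ ¬ ZR k a b j) →
      ∀ e e' : ℕ → Bool, e i = e' i → RR β (w2 k a b e) (w2 k a b e') := by
    intro i hi e e' hee
    have step : ∀ s ≤ k + 1, RR β (w2 k a b e) (w2 k a b (fun j => if j < s then e' j else e j)) := by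
      intro s
      induction s with
      | zero =>
        intro _
        have e1 : (fun j => if j < 0 then e' j else e j) = e := by
          funext j
          rw [if_neg (by omega)]
        rw [e1]
        exact RR.refl _
      | succ s ih =>
        intro hs
        have h1 := ih (by omega)
        have e1 : (fun j => if j < s + 1 then e' j else e j) =
            Function.update (fun j => if j < s then e' j else e j) s (e' s) := by
          funext j
          by_cases h : j = s
          · subst h
            rw [Function.update_self, if_pos (by omega)]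
          · rw [Function.update_of_ne h]
            by_cases h2 : j < s
            · rw [if_pos h2, if_pos (by omega)]
            · rw [if_neg h2, if_neg (by omega)]
        rw [e1]
        by_cases hsi : s = i
        · subst hsi
          have e2 : (fun j => if j < s then e' j else e j) s = e' s := by
            beta_reduce
            rw [if_neg (by omega), hee]
          rw [← e2, Function.update_eq_self]
          exact h1
        · obtain ⟨h2, h3⟩ := hi s (by omega) hsi
          exact β.trans h1 (flip1 hExc hβ ha hb (by omega) h2 h3 _ _)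
    have h4 := step (k + 1) (le_refl _)
    have e3 : w2 k a b (fun j => if j < k + 1 then e' j else e j) = w2 k a b e' := by
      unfold w2
      apply asm_congr
      intro j hj
      beta_reduce
      rw [if_pos (by omega)]
    rwa [e3] at h4
  by_cases hr : ∃ r ≤ k, FR k a b r ∨ ZR k a b r
  · obtain ⟨r, hrk, hr⟩ := hr
    refine ⟨r, main r ?_⟩
    intro j hj hjr
    have h0 : a j = 0 ∨ b j = 0 := by
      rcases hr with hr | hr
      · exact hr.2.1 j hj hjr
      · exact hr.2.1 j hj hjr
    constructor
    · intro hF
      have h1 := hF.2.2.1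
      have h2 := hF.2.2.2.1
      omega
    · intro hZ
      have h1 := hZ.2.2.1
      have h2 := hZ.2.2.2
      omega
  · refine ⟨0, main 0 ?_⟩
    intro j hj _
    exact ⟨fun h => hr ⟨j, hj, Or.inl h⟩, fun h => hr ⟨j, hj, Or.inr h⟩⟩

end Pool.Agent.MVO.H10
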